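import Mathlib

/-!
# The formula for `α_d(k)` fails for `d = k - 1`, for every `k ≥ 3`
-/

set_option autoImplicit false

open SimpleGraph Finset

namespace Pool.Agent.Results.MP_f95752_co.TopCaseFails

/-- `G` is `d`-degenerate: every (nonempty) subgraph has a vertex of degree at most `d`. -/
def IsDegenerate {V : Type*} (d : ℕ) (G : SimpleGraph V) : Prop :=
  ∀ H : G.Subgraph, H.verts.Nonempty → ∃ v ∈ H.verts, (H.neighborSet v).ncard ≤ d

/-- `G` has degeneracy exactly `k`. -/
def HasDegeneracy {V : Type*} (G : SimpleGraph V) (k : ℕ) : Prop :=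
  IsLeast {d : ℕ | IsDegenerate d G} k

/-- `α_d(G)`: the largest number of vertices of a `d`-degenerate induced subgraph. -/
noncomputable def alphaD {V : Type*} (d : ℕ) (G : SimpleGraph V) : ℕ :=
  sSup {m : ℕ | ∃ S : Set V, S.ncard = m ∧ IsDegenerate d (G.induce S)}

/-- `α_d(k)`: the infimum of `α_d(G) / |V(G)|` over the finite graphs `G` of degeneracy `k`. -/
noncomputable def alphaInf (d k : ℕ) : ℝ :=
  sInf {r : ℝ | ∃ (n : ℕ) (G : SimpleGraph (Fin n)), HasDegeneracy G k ∧ r = (alphaD d G : ℝ) / n}

section General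

variable {V : Type*} [Finite V] {G : SimpleGraph V}

/-- A set in which all degrees are at least `k` shows that `G` is not `d`-degenerate, `d < k`. -/
theorem not_isDegenerate {d : ℕ} (S : Set V) (T : Set V) (hTS : T ⊆ S) (hT : T.Nonempty)
    (h : ∀ v ∈ T, d < (G.neighborSet v ∩ T).ncard) : ¬ IsDegenerate d (G.induce S) := by
  intro hd
  obtain ⟨t, ht⟩ := hT
  let H : (G.induce S).Subgraph := (⊤ : (G.induce S).Subgraph).induce {x | x.1 ∈ T}
  obtain ⟨v, hv, hv'⟩ := hd H ⟨⟨t, hTS ht⟩, ht⟩
  have hvT : v.1 ∈ T := hv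
  have h1 := h v.1 hvT
  have h2 : (G.neighborSet v.1 ∩ T) = Subtype.val '' H.neighborSet v := by
    ext w
    simp only [Set.mem_inter_iff, mem_neighborSet, Set.mem_image, Subgraph.mem_neighborSet,
      Subtype.exists, exists_and_right, exists_eq_right]
    constructor
    · rintro ⟨h3, h4⟩
      refine ⟨hTS h4, ?_⟩
      simp only [H, Subgraph.induce_adj, Subgraph.top_adj, comap_adj,
        Function.Embedding.subtype_apply]
      exact ⟨hvT, h4, h3⟩
    · rintro ⟨h3, h4⟩
      simp only [H, Subgraph.induce_adj, Subgraph.top_adj, comap_adj,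
        Function.Embedding.subtype_apply] at h4
      exact ⟨h4.2.2, h4.2.1⟩
  rw [h2, Set.ncard_image_of_injective _ Subtype.val_injective] at h1
  omega

theorem isDegenerate_of {d : ℕ} (h : ∀ T : Set V, T.Nonempty →
    ∃ v ∈ T, (G.neighborSet v ∩ T).ncard ≤ d) : IsDegenerate d G := by
  intro H hH
  obtain ⟨v, hv, h1⟩ := h H.verts hH
  refine ⟨v, hv, (Set.ncard_le_ncard ?_ (Set.toFinite _)).trans h1⟩
  intro w hw
  exact ⟨hw.adj_sub, hw.snd_mem⟩

end General

/-- The graph `G_k`: the `k`-th power of the path `0, 1, ..., 2k-1`, and a vertex `2k` adjacent to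
`0, ..., k-2` and `2k-1`. -/
def adjN (k i j : ℕ) : Prop :=
  i ≠ j ∧ ((i < 2 * k ∧ j < 2 * k ∧ i ≤ j + k ∧ j ≤ i + k) ∨
    (i = 2 * k ∧ (j + 2 ≤ k ∨ j + 1 = 2 * k)) ∨ (j = 2 * k ∧ (i + 2 ≤ k ∨ i + 1 = 2 * k)))

/-- The graph `G_k`. -/
def GK (k : ℕ) : SimpleGraph (Fin (2 * k + 1)) where
  Adj i j := adjN k i.val j.val
  symm := by
    constructor
    intro i j h
    unfold adjN at h ⊢
    omega
  loopless := ⟨fun i h => h.1 rfl⟩

/-- A lower bound for the number of neighbours in a set given by a predicate on `ℕ`. -/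
theorem lt_ncard (k : ℕ) (hk : 1 ≤ k) (P : ℕ → Prop) (v : Fin (2 * k + 1)) (F : Finset ℕ)
    (hF : F.card = k) (h : ∀ j ∈ F, j < 2 * k + 1 ∧ adjN k v.val j ∧ P j) :
    k - 1 < ((GK k).neighborSet v ∩ {w | P w.val}).ncard := by
  have h1 : (F : Set ℕ) ⊆ Fin.val '' ((GK k).neighborSet v ∩ {w | P w.val}) := by
    intro j hj
    obtain ⟨h2, h3, h4⟩ := h j hj
    exact ⟨⟨j, h2⟩, ⟨h3, h4⟩, rfl⟩
  have h2 := Set.ncard_le_ncard h1 (Set.toFinite _)
  rw [Set.ncard_image_of_injective _ Fin.val_injective, Set.ncard_coe_finset, hF] at h2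
  omega

theorem upper (k : ℕ) (hk : 2 ≤ k) (S : Set (Fin (2 * k + 1)))
    (hS : IsDegenerate (k - 1) ((GK k).induce S)) : S.ncard ≤ 2 * k - 1 := by
  classical
  by_contra hlt
  push Not at hlt
  -- at most one vertex is missing
  have hcompl : Sᶜ.ncard ≤ 1 := by
    have h1 := Set.ncard_add_ncard_compl S
    rw [Nat.card_eq_fintype_card, Fintype.card_fin] at h1
    omega
  obtain ⟨x, hx⟩ : ∃ x : Fin (2 * k + 1), ∀ v, v ≠ x → v ∈ S := by
    rw [Set.ncard_le_one (Set.toFinite _)] at hcompl
    by_cases h : ∃ x, x ∉ S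
    · obtain ⟨x, hx⟩ := h
      refine ⟨x, fun v hv => ?_⟩
      by_contra hvS
      exact hv (hcompl v hvS x hx)
    · push Not at h
      exact ⟨0, fun v _ => h v⟩
  have hx2 := x.isLt
  have key : ∀ P : ℕ → Prop, ¬ P x.val → (∃ t, t < 2 * k + 1 ∧ P t) →
      (∀ v, v < 2 * k + 1 → P v → ∃ F : Finset ℕ, F.card = k ∧
        ∀ j ∈ F, j < 2 * k + 1 ∧ adjN k v j ∧ P j) → False := by
    intro P hPx ⟨t, ht, hPt⟩ hP
    refine not_isDegenerate S {w | P w.val} ?_ ⟨⟨t, ht⟩, hPt⟩ ?_ hS
    · intro w hw
      refine hx w ?_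
      rintro rfl
      exact hPx hw
    · intro v hv
      obtain ⟨F, hF, h⟩ := hP v.val v.isLt hv
      exact lt_ncard k (by omega) P v F hF h
  rcases Nat.lt_trichotomy x.val (k - 1) with h | h | h
  · -- the clique `k-1, ..., 2k-1`
    refine key (fun j => k - 1 ≤ j ∧ j < 2 * k) (by omega) ⟨k, by omega, by omega⟩ ?_
    intro v hv hP
    refine ⟨(Finset.Ico (k - 1) (2 * k)).erase v, ?_, ?_⟩
    · rw [card_erase_of_mem (by rw [mem_Ico]; omega), Nat.card_Ico]
      omega
    · intro j hj
      rw [mem_erase, mem_Ico] at hj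
      unfold adjN
      omega
  · -- all vertices but `k-1`
    refine key (fun j => j ≠ k - 1) (by omega) ⟨k, by omega, by omega⟩ ?_
    intro v hv hP
    rcases Nat.lt_or_ge v (k - 1) with h1 | h1
    · refine ⟨insert (2 * k) (((range (k + 1)).erase v).erase (k - 1)), ?_, ?_⟩
      · rw [card_insert_of_notMem, card_erase_of_mem, card_erase_of_mem, card_range]
        · omega
        · rw [mem_range]; omega
        · rw [mem_erase, mem_range]; omega
        · rw [mem_erase, mem_erase, mem_range]; omega
      · intro j hj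
        rw [mem_insert, mem_erase, mem_erase, mem_range] at hj
        unfold adjN
        omega
    · rcases Nat.lt_or_ge v (2 * k - 1) with h2 | h2
      · refine ⟨((Finset.Ico (k - 2) (2 * k)).erase v).erase (k - 1), ?_, ?_⟩
        · rw [card_erase_of_mem, card_erase_of_mem, Nat.card_Ico]
          · omega
          · rw [mem_Ico]; omega
          · rw [mem_erase, mem_Ico]; omega
        · intro j hj
          rw [mem_erase, mem_erase, mem_Ico] at hj
          unfold adjN
          omega
      · rcases Nat.lt_or_ge v (2 * k) with h3 | h3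
        · refine ⟨insert (2 * k) (Finset.Ico k (2 * k - 1)), ?_, ?_⟩
          · rw [card_insert_of_notMem, Nat.card_Ico]
            · omega
            · rw [mem_Ico]; omega
          · intro j hj
            rw [mem_insert, mem_Ico] at hj
            unfold adjN
            omega
        · refine ⟨insert (2 * k - 1) (range (k - 1)), ?_, ?_⟩
          · rw [card_insert_of_notMem, card_range]
            · omega
            · rw [mem_range]; omega
          · intro j hj
            rw [mem_insert, mem_range] at hj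
            unfold adjN
            omega
  · rcases Nat.lt_or_ge k x.val with h0 | h0
    · -- the clique `0, ..., k`
      refine key (fun j => j ≤ k) (by omega) ⟨k, by omega, by omega⟩ ?_
      intro v hv hP
      refine ⟨(range (k + 1)).erase v, ?_, ?_⟩
      · rw [card_erase_of_mem (by rw [mem_range]; omega), card_range]
        omega
      · intro j hj
        rw [mem_erase, mem_range] at hj
        unfold adjN
        omega
    · -- all vertices but `k`
      refine key (fun j => j ≠ k) (by omega) ⟨0, by omega, by omega⟩ ?_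
      intro v hv hP
      rcases Nat.eq_zero_or_pos v with h1 | h1
      · refine ⟨insert (2 * k) (Finset.Ico 1 k), ?_, ?_⟩
        · rw [card_insert_of_notMem, Nat.card_Ico]
          · omega
          · rw [mem_Ico]; omega
        · intro j hj
          rw [mem_insert, mem_Ico] at hj
          unfold adjN
          omega
      · rcases Nat.lt_or_ge v k with h2 | h2
        · refine ⟨((range (k + 2)).erase v).erase k, ?_, ?_⟩
          · rw [card_erase_of_mem, card_erase_of_mem, card_range]
            · omega
            · rw [mem_range]; omega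
            · rw [mem_erase, mem_range]; omega
          · intro j hj
            rw [mem_erase, mem_erase, mem_range] at hj
            unfold adjN
            omega
        · rcases Nat.lt_or_ge v (2 * k - 1) with h3 | h3
          · refine ⟨((Finset.Ico (k - 2) (2 * k)).erase v).erase k, ?_, ?_⟩
            · rw [card_erase_of_mem, card_erase_of_mem, Nat.card_Ico]
              · omega
              · rw [mem_Ico]; omega
              · rw [mem_erase, mem_Ico]; omega
            · intro j hj
              rw [mem_erase, mem_erase, mem_Ico] at hj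
              unfold adjN
              omega
          · rcases Nat.lt_or_ge v (2 * k) with h4 | h4
            · refine ⟨insert (2 * k) ((Finset.Ico (k - 1) (2 * k - 1)).erase k), ?_, ?_⟩
              · rw [card_insert_of_notMem, card_erase_of_mem, Nat.card_Ico]
                · omega
                · rw [mem_Ico]; omega
                · rw [mem_erase, mem_Ico]; omega
              · intro j hj
                rw [mem_insert, mem_erase, mem_Ico] at hj
                unfold adjN
                omega
            · refine ⟨insert (2 * k - 1) (range (k - 1)), ?_, ?_⟩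
              · rw [card_insert_of_notMem, card_range]
                · omega
                · rw [mem_range]; omega
              · intro j hj
                rw [mem_insert, mem_range] at hj
                unfold adjN
                omega

theorem ncard_le_of_forall (k : ℕ) (A : Set (Fin (2 * k + 1))) (F : Finset ℕ)
    (h : ∀ w ∈ A, w.val ∈ F) : A.ncard ≤ F.card := by
  rw [← Set.ncard_image_of_injective A Fin.val_injective, ← Set.ncard_coe_finset]
  refine Set.ncard_le_ncard ?_ (Set.toFinite _)
  rintro _ ⟨w, hw, rfl⟩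
  exact h w hw

theorem degeneracy (k : ℕ) (hk : 2 ≤ k) : HasDegeneracy (GK k) k := by
  classical
  constructor
  · refine isDegenerate_of fun T hT => ?_
    by_cases hs : (⟨2 * k, by omega⟩ : Fin (2 * k + 1)) ∈ T
    · refine ⟨_, hs, (ncard_le_of_forall k _ (insert (2 * k - 1) (range (k - 1))) ?_).trans ?_⟩
      · rintro w ⟨hw, -⟩
        have h1 : adjN k (2 * k) w.val := hw
        have := w.isLt
        rw [mem_insert, mem_range]
        unfold adjN at h1
        omega
      · refine (card_insert_le _ _).trans ?_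
        rw [card_range]
        omega
    · obtain ⟨v, hv, hmax⟩ := Set.exists_max_image T id (Set.toFinite _) hT
      have hne : ∀ w ∈ T, w.val < 2 * k := by
        intro w hw
        have h1 := w.isLt
        rcases Nat.lt_or_ge w.val (2 * k) with h2 | h2
        · exact h2
        · exact absurd ((Fin.ext (by simp only []; omega) : w = ⟨2 * k, by omega⟩) ▸ hw) hs
      refine ⟨v, hv, (ncard_le_of_forall k _ (Finset.Ico (v.val - k) v.val) ?_).trans ?_⟩
      · rintro w ⟨hw, hwT⟩
        have h1 : adjN k v.val w.val := hw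
        have h2 : w.val ≤ v.val := hmax w hwT
        have h3 := hne w hwT
        have h4 := hne v hv
        rw [mem_Ico]
        unfold adjN at h1
        omega
      · rw [Nat.card_Ico]
        omega
  · intro d hd
    by_contra hlt
    push Not at hlt
    -- `V` is itself an induced subgraph
    have h1 : ¬ IsDegenerate d ((GK k).induce Set.univ) := by
      refine not_isDegenerate Set.univ {w | w.val ≤ k} (Set.subset_univ _)
        ⟨⟨0, by omega⟩, Nat.zero_le _⟩ ?_
      intro v hv
      have hv' : v.val ≤ k := hv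
      refine lt_of_lt_of_le (b := k) hlt ?_
      have := lt_ncard k (by omega) (fun j => j ≤ k) v ((range (k + 1)).erase v.val) ?_ ?_
      · omega
      · rw [card_erase_of_mem (by rw [mem_range]; omega), card_range]
        omega
      · intro j hj
        rw [mem_erase, mem_range] at hj
        unfold adjN
        omega
    apply h1
    -- transport of degeneracy to the induced subgraph on all vertices
    intro H hH
    let e : (GK k).induce Set.univ →g GK k := (Embedding.induce Set.univ).toHom
    obtain ⟨v, hv, hv'⟩ := hd (H.map e) (by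
      obtain ⟨x, hx⟩ := hH
      exact ⟨e x, x, hx, rfl⟩)
    obtain ⟨x, hx, rfl⟩ := hv
    refine ⟨x, hx, ?_⟩
    have h2 : (H.map e).neighborSet (e x) = Subtype.val '' H.neighborSet x := by
      ext w
      simp only [Subgraph.mem_neighborSet, Subgraph.map_adj, Relation.Map, Set.mem_image]
      constructor
      · rintro ⟨a, b, h3, h4, rfl⟩
        have : a = x := Subtype.ext h4
        subst this
        exact ⟨b, h3, rfl⟩
      · rintro ⟨b, h3, rfl⟩
        exact ⟨x, b, h3, rfl, rfl⟩
    rw [h2, Set.ncard_image_of_injective _ Subtype.val_injective] at hv'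
    exact hv'

theorem alphaD_le (k : ℕ) (hk : 2 ≤ k) : alphaD (k - 1) (GK k) ≤ 2 * k - 1 := by
  have hne : {m : ℕ | ∃ S : Set (Fin (2 * k + 1)), S.ncard = m ∧
      IsDegenerate (k - 1) ((GK k).induce S)}.Nonempty := by
    refine ⟨0, ∅, Set.ncard_empty _, ?_⟩
    intro H hH
    obtain ⟨x, -⟩ := hH
    exact absurd x.2 (Set.notMem_empty _)
  refine csSup_le hne ?_
  rintro m ⟨S, rfl, hS⟩
  exact upper k hk S hS

/-- For every `k ≥ 3` the formula `α_d(k) = (d+1)/(k+1)` fails for `d = k-1`: there is a graph with
`2k+1` vertices and degeneracy `k` in which every induced `(k-1)`-degenerate subgraph has at most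
`2k-1 < k(2k+1)/(k+1)` vertices; hence `α_{k-1}(k) ≤ (2k-1)/(2k+1) < k/(k+1)`. -/
theorem result (k : ℕ) (hk : 3 ≤ k) :
    (∃ G : SimpleGraph (Fin (2 * k + 1)), HasDegeneracy G k ∧ alphaD (k - 1) G ≤ 2 * k - 1 ∧
      (alphaD (k - 1) G : ℝ) < (((k - 1 : ℕ) : ℝ) + 1) * ((2 * k + 1 : ℕ) : ℝ) / ((k : ℝ) + 1)) ∧
    alphaInf (k - 1) k ≤ (2 * (k : ℝ) - 1) / (2 * (k : ℝ) + 1) ∧
    alphaInf (k - 1) k < (((k - 1 : ℕ) : ℝ) + 1) / ((k : ℝ) + 1) := by
  have hk2 : 2 ≤ k := by omega
  have hdeg := degeneracy k hk2
  have hle := alphaD_le k hk2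
  have hk0 : (0 : ℝ) < k := by
    have : 0 < k := by omega
    exact_mod_cast this
  have hcast : (((k - 1 : ℕ) : ℝ) + 1) = k := by
    have : 1 ≤ k := by omega
    push_cast [this]
    ring
  have hle' : (alphaD (k - 1) (GK k) : ℝ) ≤ 2 * k - 1 := by
    have h1 : ((2 * k - 1 : ℕ) : ℝ) = 2 * k - 1 := by
      have : 1 ≤ 2 * k := by omega
      push_cast [this]
      ring
    rw [← h1]
    exact_mod_cast hle
  have h1 : alphaInf (k - 1) k ≤ (alphaD (k - 1) (GK k) : ℝ) / ((2 * k + 1 : ℕ) : ℝ) := by
    refine csInf_le ⟨0, ?_⟩ ⟨2 * k + 1, GK k, hdeg, rfl⟩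
    rintro r ⟨n, G, -, rfl⟩
    positivity
  have h2 : (alphaD (k - 1) (GK k) : ℝ) / ((2 * k + 1 : ℕ) : ℝ) ≤
      (2 * (k : ℝ) - 1) / (2 * (k : ℝ) + 1) := by
    push_cast
    gcongr
  have h3 : (2 * (k : ℝ) - 1) / (2 * (k : ℝ) + 1) < k / ((k : ℝ) + 1) := by
    rw [div_lt_div_iff₀ (by positivity) (by positivity)]
    nlinarith
  refine ⟨⟨GK k, hdeg, hle, ?_⟩, h1.trans h2, ?_⟩
  · rw [hcast]
    refine lt_of_le_of_lt hle' ?_
    rw [lt_div_iff₀ (by positivity)]
    push_cast
    nlinarith
  · rw [hcast]
    exact lt_of_le_of_lt (h1.trans h2) h3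

end Pool.Agent.Results.MP_f95752_co.TopCaseFails
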